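import Pool.Agent.Lib.MP_87f021_gt.Space

/-!
Every ideal of the semilattice is countable: the space is first countable, the base is
point-countable, and the space has the size of the continuum.
-/

set_option autoImplicit false

namespace Pool.Agent.Lib.MP_87f021_gt

open Set TopologicalSpace Cardinal

lemma join_form {x y m : T} (hm : IsJoin x y m) (hx : m ≠ x) (hy : m ≠ y) :
    ∃ E l i, m = .w E l ∧ ((x = .w E i ∧ blw (E l) y) ∨ (y = .w E i ∧ blw (E l) x)) := by
  obtain ⟨hv, h1, h2, h3⟩ := hm
  cases m with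
  | r => exact absurd (Eq.symm h1) hx
  | p a =>
    exact absurd (h3 a hv.of_p (h1.resolve_left hx.symm) (h2.resolve_left hy.symm))
      (not_p_below a)
  | w E l =>
    rcases h1 with h1 | ⟨i, hi, rfl⟩ <;> rcases h2 with h2 | ⟨j, hj, rfl⟩
    · exact absurd (h3 _ (hv.chain.1 l) h1 h2) (not_w_below E l l)
    · exact ⟨E, l, j, rfl, Or.inr ⟨rfl, h1⟩⟩
    · exact ⟨E, l, i, rfl, Or.inl ⟨rfl, h2⟩⟩
    · exfalso
      rcases le_total i j with h | h
      · exact hy (by rw [le_antisymm hj
          (le_of_below_ww (h3 _ (hv.w' j) (below_ww E h) (below_refl _)))])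
      · exact hx (by rw [le_antisymm hi
          (le_of_below_ww (h3 _ (hv.w' i) (below_refl _) (below_ww E h)))])

lemma countable_gen (b : ℕ → T) : (gen b).Countable :=
  (countable_iUnion fun n => (finite_below (b n)).countable).mono fun _ ⟨n, hn⟩ =>
    mem_iUnion.2 ⟨n, hn⟩

theorem IsIdl.countable {I : Set T} (hI : IsIdl I) : I.Countable := by
  by_contra hc
  have hinf : I.Infinite := fun h => hc h.countable
  have step : ∀ a : I, ∃ b : I, blw b.1 a.1 ∧ ¬ blw a.1 b.1 := by
    intro a
    obtain ⟨c, hc, hca⟩ := hinf.exists_notMem_finite (finite_below a.1)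
    obtain ⟨z, hz, h1, h2⟩ := hI.dir a.1 a.2 c hc
    exact ⟨⟨z, hz⟩, h1, fun h => hca (below_trans (hI.valid _ a.2) h h2)⟩
  choose g hg1 hg2 using step
  obtain ⟨a0, ha0⟩ := hI.nonempty
  let a : ℕ → T := fun n => (g^[n] ⟨a0, ha0⟩).1
  have hmem : ∀ n, a n ∈ I := fun n => (g^[n] ⟨a0, ha0⟩).2
  have hv : ∀ n, Valid (a n) := fun n => hI.valid _ (hmem n)
  have hs1 : ∀ n, blw (a (n + 1)) (a n) := fun n => by
    simp only [a, Function.iterate_succ_apply']
    exact hg1 _
  have hs2 : ∀ n, ¬ blw (a n) (a (n + 1)) := fun n => by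
    simp only [a, Function.iterate_succ_apply']
    exact hg2 _
  have hlt : ∀ i j, i < j → a i ≠ a j := fun i j h e =>
    hs2 i (e ▸ seq_mono hv hs1 (Nat.succ_le_of_lt h))
  have hinj : Function.Injective a := fun i j e => by
    rcases lt_trichotomy i j with h | h | h
    · exact absurd e (hlt i j h)
    · exact h
    · exact absurd e.symm (hlt j i h)
  have bound : ∀ y N, ¬ ∀ n, N ≤ n → blw y (a n) := fun y N h =>
    not_all_below (a := fun n => a (N + n)) (fun i j e => Nat.add_left_cancel (hinj e)) y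
      fun n => h _ (Nat.le_add_right N n)
  obtain ⟨u, hu, huJ⟩ : ∃ u ∈ I, u ∉ gen a := by
    by_contra h
    push Not at h
    exact hc ((countable_gen a).mono h)
  obtain ⟨N, hN⟩ : ∃ N, ¬ blw u (a N) := not_forall.1 (not_all_below hinj u)
  have key : ∀ n, N ≤ n → ∃ E l i, u = .w E i ∧ blw (E l) (a n) ∧ T.w E l ∈ I := by
    intro n hn
    obtain ⟨m, hm⟩ := hI.exists_join hu (hmem n)
    have hmI := hI.join_mem hu (hmem n) hm
    obtain ⟨E, l, i, rfl, h | h⟩ := join_form hm
      (fun e => hN (below_trans (hI.valid _ hu) (e ▸ hm.2.2.1) (seq_mono hv hs1 hn)))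
      (fun e => huJ ⟨n, e ▸ hm.2.1⟩)
    · exact ⟨E, l, i, h.1, h.2, hmI⟩
    · refine absurd (fun k hk => ?_) (bound (.w E l) n)
      have hno : ¬ blw (a k) (.w E l) := fun h' => huJ ⟨k, below_trans (hv k) h' hm.2.1⟩
      by_cases hk' : ∃ j, a k = .w E j
      · obtain ⟨j, hj⟩ := hk'
        rw [hj] at hno ⊢
        exact below_ww E (le_of_not_ge fun h' => hno (below_ww E h'))
      · obtain ⟨z, hz, h1, h2⟩ := hI.dir _ (hmem k) _ hmI
        exact absurd (lemB (hI.valid z hz) h1 (h.1 ▸ seq_mono hv hs1 hk) (not_exists.1 hk') h2) hno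
  obtain ⟨D, -, i, rfl, -, -⟩ := key N le_rfl
  have hD := hI.valid _ hu
  have hall : ∀ j, T.w D j ∈ I := by
    intro j
    by_contra hj
    refine bound (.w D j) N fun n hn => ?_
    obtain ⟨E, l, i', e, h1, h2⟩ := key n hn
    injection e with e _
    subst e
    have hl : l ≤ j := le_of_not_ge fun h => hj (hI.down _ h2 _ (below_ww D h))
    exact Or.inl (below_trans (hD.chain.1 j) (chain_mono hD hl) h1)
  exact hc ((countable_gen (T.w D)).mono
    ((isMax_w (hD.w' 0)).2 I hI fun x ⟨n, hn⟩ => hI.down _ (hall n) x hn))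

theorem pointCountable (x : X) : {V ∈ B | x ∈ V}.Countable :=
  (x.2.1.countable.image U).mono (by rintro _ ⟨⟨a, rfl⟩, ha⟩; exact ⟨a, ha, rfl⟩)

theorem firstCountable : FirstCountableTopology X :=
  ⟨fun x => Filter.HasCountableBasis.isCountablyGenerated
    ⟨isBasis.nhds_hasBasis, pointCountable x⟩⟩

/-- A term as a labelled tree. -/
def enc : T → List ℕ → ℕ
  | .r, _ => 0
  | .p _, [] => 1
  | .p a, _ :: l => enc a l
  | .w _ j, [] => j + 2
  | .w C _, k :: l => enc (C k) l

lemma enc_inj : Function.Injective enc := by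
  intro a
  induction a with
  | r =>
    intro b h
    have := congrFun h []
    cases b <;> simp [enc] at this ⊢
  | p a ih =>
    intro b h
    have := congrFun h []
    cases b with
    | r => simp [enc] at this
    | p b => rw [ih (funext fun l => congrFun h (0 :: l))]
    | w C j => simp [enc] at this
  | w C j ih =>
    intro b h
    have := congrFun h []
    cases b with
    | r => simp [enc] at this
    | p b => simp [enc] at this
    | w D i =>
      simp only [enc, Nat.add_right_cancel_iff] at this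
      rw [this, show C = D from funext fun k => ih k (funext fun l => congrFun h (k :: l))]

/-- The chain with steps of length one or two. -/
def ch (f : ℕ → Bool) : ℕ → T
  | 0 => .r
  | k + 1 => cond (f k) (.p (.p (ch f k))) (.p (ch f k))

lemma ch_valid (f : ℕ → Bool) : Valid (.w (ch f) 0) := by
  refine Valid.w 0 (fun k => ?_) fun k => ?_
  · induction k with
    | zero => exact Valid.r
    | succ k ih =>
      rw [ch]
      cases f k
      · exact Valid.p ih
      · exact Valid.p (Valid.p ih)
  · rw [ch]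
    cases f k
    · exact below_refl _
    · exact below_p _

lemma ch_not (f : ℕ → Bool) (D : ℕ → T) (j n : ℕ) : ¬ blw (ch f n) (.w D j) := by
  induction n with
  | zero => simp [ch, blw]
  | succ n ih =>
    rw [ch]
    cases f n <;> simpa [blw] using ih

theorem mk_X : #X = 𝔠 := by
  apply le_antisymm
  · choose F hF using fun x : X => x.2.1.countable.exists_eq_range x.2.1.nonempty
    have hi : Function.Injective fun x : X => enc ∘ F x := fun x y h =>
      Subtype.ext (by rw [hF x, hF y, enc_inj.comp_left h])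
    simpa using mk_le_of_injective hi
  · have hi : Function.Injective fun f : ℕ → Bool => (⟨_, isMax_w (ch_valid f)⟩ : X) := by
      intro f g h
      have h1 : T.w (ch f) 0 ∈ gen (T.w (ch g)) := by
        rw [← show gen (T.w (ch f)) = gen (T.w (ch g)) from congrArg Subtype.val h]
        exact ⟨0, below_refl _⟩
      obtain ⟨n, h2 | ⟨i, -, h2⟩⟩ := h1
      · exact absurd h2 (ch_not g _ _ _)
      injection h2 with e _
      funext k
      have h3 := congrFun e (k + 1)
      have h4 : ∀ a : T, T.p a ≠ a := fun a ha => not_p_below a (ha.symm ▸ below_refl a)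
      simp only [ch, e] at h3
      cases hf : f k <;> cases hg : g k <;> simp [hf, hg, h4, (h4 _).symm] at h3 ⊢
    have := mk_le_of_injective hi
    rwa [show #(ℕ → Bool) = 𝔠 by simp] at this

lemma below_iter {a x : T} {n : ℕ} (h : blw (T.p^[n] a) x) :
    blw a x ∨ ∃ j, x = .p (T.p^[j] a) := by
  induction n with
  | zero => exact Or.inl h
  | succ n ih =>
    rw [Function.iterate_succ_apply'] at h
    exact h.elim (fun e => Or.inr ⟨n, e⟩) ih

lemma iter_below {a : T} (ha : Valid a) (n : ℕ) : blw (T.p^[n] a) a :=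
  chain_mono (valid_w_iter ha) (Nat.zero_le n)

lemma below_of_subset {a b : T} (ha : Valid a) (h : U a ⊆ U b) : blw a b := by
  have key : ∀ c, Valid c → blw c a → blw c b ∨ (∃ j, b = .p (T.p^[j] c)) ∨
      ∃ i, b = .w (fun n => T.p^[n] c) i := by
    intro c hc hca
    obtain ⟨n, hn | ⟨i, -, hi⟩⟩ := h (a := ⟨_, isMax_w (valid_w_iter hc)⟩) ⟨0, Or.inl hca⟩
    · exact (below_iter hn).imp_right Or.inl
    · exact Or.inr (Or.inr ⟨i, hi⟩)
  have hw := valid_w_iter ha
  rcases key a ha (below_refl a) with h1 | ⟨j, rfl⟩ | ⟨i, rfl⟩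
  · exact h1
  · exfalso
    rcases key _ hw (Or.inl (below_refl a)) with h2 | ⟨k, h2⟩ | ⟨i, h2⟩
    · rcases h2 with h2 | ⟨i, -, h2⟩
      · exact not_p_below _ (below_trans (valid_iter ha j) (iter_below ha j) h2)
      · simp at h2
    · injection h2 with e
      exact not_w_below (fun n => T.p^[n] a) 0 j (by
        show blw (T.p^[j] a) _
        rw [e]
        exact iter_below hw k)
    · simp at h2
  · exfalso
    rcases key _ (Valid.p ha) (below_p a) with h2 | ⟨k, h2⟩ | ⟨k, h2⟩
    · exact not_w_below (fun n => T.p^[n] a) i 1 h2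
    · simp at h2
    · injection h2 with e _
      have e0 : a = T.p a := congrFun e 0
      exact not_p_below a (e0 ▸ below_refl a)

theorem finite_supersets : ∀ V ∈ B, V.Nonempty → {W ∈ B | V ⊆ W}.Finite := by
  rintro _ ⟨a, rfl⟩ ⟨I, hI⟩
  exact ((finite_below a).image U).subset (by
    rintro _ ⟨⟨b, rfl⟩, hb⟩
    exact ⟨b, below_of_subset (I.2.1.valid a hI) hb, rfl⟩)

end Pool.Agent.Lib.MP_87f021_gt
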